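import Mathlib
import Pool.Agent.WIR.StmtsC

set_option autoImplicit false

/-! Row ADV of the squad WIR: the character average is bounded by the random walk. -/

namespace Pool.Agent.WIR.H65

open Pool.Agent.WIR

theorem aw_le_one (N : ℕ) (S : Set ℕ) (ξ : ZMod (3 ^ N)) : ∀ n i l : ℕ,
    ‖Aw N S ξ n i l‖ ≤ 1 := by
  intro n
  induction n with
  | zero =>
    intro i l
    unfold Aw
    split_ifs
    · rw [norm_one]
    · rw [norm_zero]
      exact zero_le_one
  | succ n ih =>
    intro i l
    unfold Aw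
    rw [norm_mul]
    have h1 : ‖(1 / 2 : ℂ)‖ = 1 / 2 := by
      rw [norm_div, norm_one, Complex.norm_ofNat]
    rw [h1]
    have h2 := norm_add_le (ZMod.stdAddChar (-(ξ * 3 ^ i * (2 : ZMod (3 ^ N))⁻¹ ^ (l + 1))) *
      Aw N S ξ n (i + 1) (l + 1)) (Aw N S ξ n i (l + 1))
    rw [norm_mul, AddChar.norm_apply, one_mul] at h2
    have h3 := ih (i + 1) (l + 1)
    have h4 := ih i (l + 1)
    linarith

theorem two_mul_pow (N l : ℕ) : (2 : ZMod (3 ^ N)) * (2 : ZMod (3 ^ N))⁻¹ ^ (l + 1) =
    (2 : ZMod (3 ^ N))⁻¹ ^ l := by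
  have hu : IsUnit (2 : ZMod (3 ^ N)) := by
    have h := (ZMod.isUnit_iff_coprime 2 (3 ^ N)).mpr
      (Nat.Coprime.pow_right N (by norm_num))
    simpa using h
  rw [pow_succ', ← mul_assoc, ZMod.mul_inv_of_unit _ hu, one_mul]

theorem adv (hawp : AwpStmt) (hmon : MonStmt) : AdvStmt := by
  intro N t S ξ
  obtain ⟨h, hh⟩ : ∃ h, h = (N - t) / 2 := ⟨_, rfl⟩
  rw [← hh]
  have heps : (0 : ℝ) ≤ 1 - 2 * eps ^ 2 := by
    unfold eps
    norm_num
  have key : ∀ k n j l : ℕ, t ≤ N → (∀ m ∈ S, N ≤ m) → j ≤ h → h - j = k →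
      ‖Aw N S ξ n (t + 2 * j) l‖ ≤ Dv (l + n) (2 * eps ^ 2) (bk N t ξ h) k j l := by
    intro k
    induction k with
    | zero =>
      intro n j l _ _ _ _
      unfold Dv
      rw [if_pos (Nat.le_add_right l n)]
      exact aw_le_one N S ξ n _ l
    | succ k ih =>
      intro n j l htN hS hj hk
      have hi : t + 2 * j + 2 ≤ N := by omega
      have h1 := hawp N S ξ n (t + 2 * j) l (¬ bk N t ξ h (j + 1) (l + 3))
        (fun hm => by
          have := hS _ hm
          omega)
        (fun hm => by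
          have := hS _ hm
          omega)
        (by
          intro hW
          unfold bk at hW
          push Not at hW
          have h2 := hW (by omega) (by omega)
          unfold mm res at h2
          have e1 : t + 2 * (j + 1) - 2 = t + 2 * j := by omega
          have e2 : (2 : ZMod (3 ^ N)) * ξ * 3 ^ (t + 2 * (j + 1) - 2) *
              (2 : ZMod (3 ^ N))⁻¹ ^ (l + 3) =
              ξ * 3 ^ (t + 2 * j) * (2 : ZMod (3 ^ N))⁻¹ ^ (l + 2) := by
            rw [e1, ← two_mul_pow N (l + 2)]
            ring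
          rw [e2] at h2
          exact h2)
      refine h1.trans ?_
      unfold Dv
      apply (hmon.1 _ _ _ _ ?_).2
      intro x hx1 hx2
      have h3 := ih (l + n - x) (j + 1) x htN hS (by omega) (by omega)
      have e3 : t + 2 * (j + 1) = t + 2 * j + 2 := by ring
      have e4 : x + (l + n - x) = l + n := by omega
      rw [e3, e4] at h3
      by_cases hc : x = l + 3 ∧ ¬ bk N t ξ h (j + 1) (l + 3)
      · have hc' : x = l + 3 ∧ ¬ bk N t ξ h (j + 1) x := by
          refine ⟨hc.1, ?_⟩
          rw [hc.1]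
          exact hc.2
        rw [if_pos hc, if_pos hc']
        exact mul_le_mul_of_nonneg_left h3 heps
      · have hc' : ¬ (x = l + 3 ∧ ¬ bk N t ξ h (j + 1) x) := by
          rintro ⟨h5, h6⟩
          apply hc
          refine ⟨h5, ?_⟩
          rw [← h5]
          exact h6
        rw [if_neg hc, if_neg hc', one_mul, one_mul]
        exact h3
  intro n j l htN hS hj
  exact key (h - j) n j l htN hS hj rfl

end Pool.Agent.WIR.H65
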